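import Pool.Agent.MP_3a192b_co.Lower

open Pool.Agent.MP_3a192b_co

/-- Explicit polynomial lower bound, including the boundary case `c = 1 / 2`. -/
theorem Pool.Agent.MP_3a192b_co.Old.polyLower (c ε : ℝ) (hc : c ≤ 1 / 2)
    (hε : 0 < ε) (hε1 : ε ≤ 1) (n m : ℕ) (hn : 0 < n) (hm : 0 < m) :
    (1 / 3 : ℝ) * ((min m (2 ^ n) : ℕ) : ℝ) ^ (ε ^ 3 / 16) ≤ chiStar n m c ε :=
  le_chiStar hc hε hε1 hn hm
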